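import Pool.Agent.H51.EG2

/-!
# The multiset of edge imbalances of a graph without imbalance 0 is graphic: the inequality
-/

set_option autoImplicit false

open Finset

namespace Pool.Agent.H791_Imb

section

variable {V : Type*} [Fintype V] [DecidableEq V] (G : SimpleGraph V) [DecidableRel G.Adj]

/-- The imbalance `|deg u - deg v|` of the pair `{u, v}`. -/
def imb (e : Sym2 V) : ℕ :=
  Sym2.lift ⟨fun u v => ((G.degree u : ℤ) - (G.degree v : ℤ)).natAbs,
    fun u v => by dsimp only; omega⟩ e

@[simp] theorem imb_mk (u v : V) :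
    imb G s(u, v) = ((G.degree u : ℤ) - (G.degree v : ℤ)).natAbs := rfl

/-- The edges that meet `W` and avoid `v`. -/
def inc (v : V) (W : Finset V) : Finset (Sym2 V) :=
  G.edgeFinset.filter fun e => v ∉ e ∧ ∃ w ∈ W, w ∈ e

/-- The edges that meet `W` and avoid `v`: a lower bound for their number. -/
theorem two_mul_sum_degree_le (v : V) (W : Finset V) (hv : v ∉ W) :
    2 * ∑ w ∈ W, G.degree w ≤ 2 * (inc G v W).card + W.card * (W.card + 1) := by
  induction W using Finset.induction_on with
  | empty => simp
  | insert w W hw ih =>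
    have hvw : v ≠ w := fun h => hv (h ▸ mem_insert_self _ _)
    have hvW : v ∉ W := fun h => hv (mem_insert_of_mem h)
    have ih := ih hvW
    rw [sum_insert hw, card_insert_of_notMem hw]
    -- the new edges
    set X : Finset V := G.neighborFinset w \ insert v W with hX
    have hXc : G.degree w ≤ X.card + (W.card + 1) := by
      have h1 : (G.neighborFinset w).card ≤ X.card + (insert v W).card :=
        Nat.sub_le_iff_le_add.1 (Finset.le_card_sdiff _ _)
      rw [card_insert_of_notMem hvW, SimpleGraph.card_neighborFinset_eq_degree] at h1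
      exact h1
    have hinj : Set.InjOn (fun x => s(w, x)) (X : Set V) := by
      intro x _ y _ hxy
      exact Sym2.congr_right.1 hxy
    have h2 : inc G v W ∪ X.image (fun x => s(w, x)) ⊆ inc G v (insert w W) := by
      intro e he
      rw [mem_union] at he
      rcases he with he | he
      · rw [inc, mem_filter] at he ⊢
        obtain ⟨h3, h4, x, h5, h6⟩ := he
        exact ⟨h3, h4, x, mem_insert_of_mem h5, h6⟩
      · obtain ⟨x, hx, rfl⟩ := mem_image.1 he
        rw [hX, mem_sdiff, SimpleGraph.mem_neighborFinset, mem_insert, not_or] at hx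
        rw [inc, mem_filter, SimpleGraph.mem_edgeFinset, SimpleGraph.mem_edgeSet]
        refine ⟨hx.1, ?_, w, mem_insert_self _ _, Sym2.mem_mk_left _ _⟩
        rw [Sym2.mem_iff, not_or]
        exact ⟨hvw, fun h => hx.2.1 h.symm⟩
    have h3 : Disjoint (inc G v W) (X.image (fun x => s(w, x))) := by
      rw [Finset.disjoint_right]
      intro e he he'
      obtain ⟨x, hx, rfl⟩ := mem_image.1 he
      rw [hX, mem_sdiff, SimpleGraph.mem_neighborFinset, mem_insert, not_or] at hx
      rw [inc, mem_filter] at he'
      obtain ⟨y, hy, hy'⟩ := he'.2.2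
      rw [Sym2.mem_iff] at hy'
      rcases hy' with h | h
      · exact hw (h ▸ hy)
      · exact hx.2.2 (h ▸ hy)
    have h4 := card_le_card h2
    rw [card_union_of_disjoint h3, card_image_of_injOn hinj] at h4
    nlinarith

/-- The polynomial inequality. -/
theorem poly (d k j ω : ℤ) (hj : 1 ≤ j) (hjk : j ≤ k) (hkd : k + 1 ≤ d) (hω0 : 0 ≤ ω)
    (hω : ω ≤ d - j) :
    0 ≤ 2 * (k - 1) * (k - j) + ω * (2 * d - 2 * k - ω - 1) := by
  obtain ⟨x, hx⟩ : ∃ x, x = d - k := ⟨_, rfl⟩
  obtain ⟨y, hy⟩ : ∃ y, y = k - j := ⟨_, rfl⟩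
  obtain ⟨s, hs⟩ : ∃ s, s = ω - x := ⟨_, rfl⟩
  have hd : d = k + x := by omega
  have hj' : j = k - y := by omega
  have hω' : ω = x + s := by omega
  subst hd hj' hω'
  have h1 : s ≤ y := by omega
  have h2 : -x ≤ s := by omega
  have h3 : 0 ≤ y := by omega
  have h4 : 1 ≤ x := by omega
  have h5 : y ≤ k - 1 := by omega
  have h6 : (x + s) * (2 * (k + x) - 2 * k - (x + s) - 1) = x * (x - 1) - s * (s + 1) := by ring
  rw [h6]
  have h7 : k - (k - y) = y := by ring
  rw [h7]
  by_cases hs0 : 0 ≤ s
  · have h8 : s * (s + 1) ≤ y * (y + 1) := by nlinarith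
    have h9 : 0 ≤ x * (x - 1) := by nlinarith
    have h10 : y * (y + 1) ≤ 2 * (k - 1) * y := by
      rcases eq_or_lt_of_le h3 with h | h
      · rw [← h]; simp
      · nlinarith
    linarith
  · push Not at hs0
    have h8 : s * (s + 1) ≤ x * (x - 1) := by nlinarith
    have h9 : 0 ≤ 2 * (k - 1) * y := by
      have : 0 ≤ k - 1 := by omega
      positivity
    linarith

/-- **The main inequality**, for a set `T` of edges all of whose imbalances are at least `|T|`. -/
theorem main_ineq (h0 : ∀ e ∈ G.edgeFinset, 0 < imb G e) (T : Finset (Sym2 V))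
    (hT : T ⊆ G.edgeFinset) (hk : ∀ e ∈ T, T.card ≤ imb G e) :
    ∑ e ∈ T, imb G e ≤ T.card * (T.card - 1) + ∑ e ∈ G.edgeFinset \ T, min (imb G e) T.card := by
  rcases T.eq_empty_or_nonempty with rfl | hne
  · simp
  -- the vertices incident with an edge of `T`
  set A : Finset V := univ.filter fun v => ∃ e ∈ T, v ∈ e with hA
  have hAne : A.Nonempty := by
    obtain ⟨e, he⟩ := hne
    induction e using Sym2.ind with
    | _ x y => exact ⟨x, mem_filter.2 ⟨mem_univ _, _, he, Sym2.mem_mk_left _ _⟩⟩
  obtain ⟨v, hvA, hmax⟩ := exists_max_image A (fun v => G.degree v) hAne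
  obtain ⟨e₁, he₁, hve₁⟩ := (mem_filter.1 hvA).2
  obtain ⟨u, rfl⟩ := Sym2.mem_iff_exists.1 hve₁
  set k := T.card with hkdef
  set d := G.degree v with hd
  have hk1 : 1 ≤ k := hne.card_pos
  have hadj : G.Adj v u := by
    have := hT he₁
    rwa [SimpleGraph.mem_edgeFinset, SimpleGraph.mem_edgeSet] at this
  have hdu : 1 ≤ G.degree u := by
    have : 0 < G.degree u := (G.degree_pos_iff_exists_adj u).2 ⟨v, hadj.symm⟩
    omega
  have hdk : k + 1 ≤ d := by
    have h1 := hk _ he₁
    rw [imb_mk] at h1
    have h2 : G.degree u ≤ d := hmax u (mem_filter.2 ⟨mem_univ _, _, he₁, Sym2.mem_mk_right _ _⟩)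
    omega
  -- the sum over `T`
  have hsumT : ∑ e ∈ T, imb G e ≤ k * (d - 1) := by
    rw [hkdef, ← smul_eq_mul]
    apply sum_le_card_nsmul
    intro e he
    induction e using Sym2.ind with
    | _ x y =>
      have hxy : G.Adj x y := by
        have := hT he
        rwa [SimpleGraph.mem_edgeFinset, SimpleGraph.mem_edgeSet] at this
      have h1 : 0 < G.degree x := (G.degree_pos_iff_exists_adj x).2 ⟨y, hxy⟩
      have h2 : 0 < G.degree y := (G.degree_pos_iff_exists_adj y).2 ⟨x, hxy.symm⟩
      have h3 : G.degree x ≤ d := hmax x (mem_filter.2 ⟨mem_univ _, _, he, Sym2.mem_mk_left _ _⟩)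
      have h4 : G.degree y ≤ d := hmax y (mem_filter.2 ⟨mem_univ _, _, he, Sym2.mem_mk_right _ _⟩)
      rw [imb_mk]
      omega
  -- the neighbours of `v`
  set N := G.neighborFinset v with hN
  have hNc : N.card = d := G.card_neighborFinset_eq_degree v
  set J := N.filter fun w => s(v, w) ∈ T with hJ
  set N' := N.filter fun w => s(v, w) ∉ T with hN'
  have hJN : J.card + N'.card = d := by
    rw [← hNc]; exact card_filter_add_card_filter_not _
  have hJ1 : 1 ≤ J.card := card_pos.2 ⟨u, mem_filter.2 ⟨by
    rw [hN, SimpleGraph.mem_neighborFinset]; exact hadj, he₁⟩⟩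
  set W := N'.filter fun w => imb G s(v, w) < k with hW
  set F := N'.filter fun w => ¬ imb G s(v, w) < k with hF
  have hWF : W.card + F.card = N'.card := card_filter_add_card_filter_not _
  have hvW : v ∉ W := by
    intro h
    have h1 := (mem_filter.1 (mem_filter.1 h).1).1
    rw [hN, SimpleGraph.mem_neighborFinset] at h1
    exact G.loopless.irrefl v h1
  -- the edges at `v` and the edges which avoid `v` and meet `W`
  have hinjv : Function.Injective (fun w : V => s(v, w)) := fun x y h => Sym2.congr_right.1 h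
  have hTinc : J.card + (T ∩ inc G v W).card ≤ k := by
    have h1 : J.image (fun w => s(v, w)) ∪ (T ∩ inc G v W) ⊆ T := by
      intro e he
      rw [mem_union] at he
      rcases he with he | he
      · obtain ⟨x, hx, rfl⟩ := mem_image.1 he
        exact (mem_filter.1 hx).2
      · exact (mem_inter.1 he).1
    have h2 : Disjoint (J.image (fun w => s(v, w))) (T ∩ inc G v W) := by
      rw [Finset.disjoint_left]
      intro e he he'
      obtain ⟨x, hx, rfl⟩ := mem_image.1 he
      exact (mem_filter.1 (mem_inter.1 he').2).2.1 (Sym2.mem_mk_left _ _)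
    have h3 := card_le_card h1
    rwa [card_union_of_disjoint h2, card_image_of_injective _ hinjv] at h3
  have hinc : (inc G v W).card ≤ (inc G v W \ T).card + (T ∩ inc G v W).card := by
    have h1 := card_sdiff_add_card_inter (inc G v W) T
    rw [inter_comm] at h1
    omega
  have hsupply : ∑ w ∈ N', min (imb G s(v, w)) k + (inc G v W \ T).card ≤
      ∑ e ∈ G.edgeFinset \ T, min (imb G e) k := by
    have h1 : N'.image (fun w => s(v, w)) ∪ (inc G v W \ T) ⊆ G.edgeFinset \ T := by
      intro e he
      rw [mem_union] at he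
      rcases he with he | he
      · obtain ⟨x, hx, rfl⟩ := mem_image.1 he
        have hx' := mem_filter.1 hx
        rw [mem_sdiff, SimpleGraph.mem_edgeFinset, SimpleGraph.mem_edgeSet]
        refine ⟨?_, hx'.2⟩
        have := hx'.1
        rwa [hN, SimpleGraph.mem_neighborFinset] at this
      · rw [mem_sdiff] at he ⊢
        exact ⟨(mem_filter.1 he.1).1, he.2⟩
    have h2 : Disjoint (N'.image (fun w => s(v, w))) (inc G v W \ T) := by
      rw [Finset.disjoint_left]
      intro e he he'
      obtain ⟨x, hx, rfl⟩ := mem_image.1 he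
      exact (mem_filter.1 (mem_sdiff.1 he').1).2.1 (Sym2.mem_mk_left _ _)
    have h3 := sum_le_sum_of_subset (f := fun e => min (imb G e) k) h1
    rw [sum_union h2, sum_image (fun x _ y _ h => hinjv h)] at h3
    have h4 : (inc G v W \ T).card ≤ ∑ e ∈ inc G v W \ T, min (imb G e) k := by
      rw [← smul_eq_mul (inc G v W \ T).card 1 |>.trans (mul_one _)]
      apply card_nsmul_le_sum
      intro e he
      have h5 := h0 e (mem_filter.1 (mem_sdiff.1 he).1).1
      omega
    omega
  have hsplit : ∑ w ∈ N', min (imb G s(v, w)) k = ∑ w ∈ W, imb G s(v, w) + F.card * k := by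
    rw [← sum_filter_add_sum_filter_not N' (fun w => imb G s(v, w) < k)]
    congr 1
    · apply sum_congr rfl
      intro w hw
      have := (mem_filter.1 hw).2
      omega
    · rw [← smul_eq_mul]
      apply sum_eq_card_nsmul
      intro w hw
      have := (mem_filter.1 hw).2
      omega
  have hWsum : W.card * d ≤ ∑ w ∈ W, imb G s(v, w) + ∑ w ∈ W, G.degree w := by
    rw [← sum_add_distrib, ← smul_eq_mul]
    apply card_nsmul_le_sum
    intro w _
    rw [imb_mk]
    omega
  have hdeg := two_mul_sum_degree_le G v W hvW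
  -- conclusion
  obtain ⟨S, hS⟩ : ∃ S, S = ∑ e ∈ G.edgeFinset \ T, min (imb G e) k := ⟨_, rfl⟩
  obtain ⟨s₁, hs₁⟩ : ∃ S, S = ∑ w ∈ W, imb G s(v, w) := ⟨_, rfl⟩
  obtain ⟨s₂, hs₂⟩ : ∃ S, S = ∑ w ∈ W, G.degree w := ⟨_, rfl⟩
  rw [← hS] at hsupply ⊢
  rw [← hs₁] at hsplit hWsum
  rw [← hs₂] at hWsum hdeg
  rw [hsplit] at hsupply
  have hpoly := poly d k J.card W.card (by exact_mod_cast hJ1) (by
    have : J.card ≤ k := by omega
    exact_mod_cast this) (by exact_mod_cast hdk) (by positivity) (by
    have : W.card + J.card ≤ d := by omega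
    have : (W.card : ℤ) + J.card ≤ d := by exact_mod_cast this
    linarith)
  have hFc : (F.card : ℤ) = d - J.card - W.card := by
    have : F.card + J.card + W.card = d := by omega
    have : (F.card : ℤ) + J.card + W.card = d := by exact_mod_cast this
    linarith
  zify at hsupply hdeg hWsum hinc hTinc
  rw [hFc] at hsupply
  have hgoal : (k : ℤ) * (d - k) ≤ S := by nlinarith
  have hfin : (k : ℤ) * (d - 1) ≤ k * (k - 1) + S := by linarith
  have hfin' : k * (d - 1) ≤ k * (k - 1) + S := by
    zify [show 1 ≤ d by omega, hk1]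
    exact hfin
  exact hsumT.trans hfin'

/-- The sum of the imbalances is even. -/
theorem even_sum_imb : Even (∑ e ∈ G.edgeFinset, imb G e) := by
  have h1 : ∀ e ∈ G.edgeFinset, Even (imb G e + ∑ v, if v ∈ e then G.degree v else 0) := by
    intro e he
    induction e using Sym2.ind with
    | _ x y =>
      have hxy : G.Adj x y := by rwa [SimpleGraph.mem_edgeFinset, SimpleGraph.mem_edgeSet] at he
      have h2 : (∑ v, if v ∈ s(x, y) then G.degree v else 0) = G.degree x + G.degree y := by
        rw [← sum_filter]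
        have h3 : (univ.filter fun v => v ∈ s(x, y)) = {x, y} := by
          ext v
          simp [Sym2.mem_iff]
        rw [h3, sum_pair hxy.ne]
      rw [h2, imb_mk, Nat.even_iff]
      omega
  have h2 : Even (∑ e ∈ G.edgeFinset, (imb G e + ∑ v, if v ∈ e then G.degree v else 0)) :=
    Finset.sum_induction _ Even (fun _ _ => Even.add) Even.zero h1
  rw [sum_add_distrib, sum_comm] at h2
  have h3 : ∀ v, (∑ e ∈ G.edgeFinset, if v ∈ e then G.degree v else 0) =
      G.degree v * G.degree v := by
    intro v
    rw [← sum_filter, sum_const, smul_eq_mul]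
    congr 1
    rw [← SimpleGraph.card_incidenceFinset_eq_degree]
    congr 1
    ext e
    rw [mem_filter, SimpleGraph.mem_incidenceFinset, SimpleGraph.mem_edgeFinset]
    rfl
  rw [sum_congr rfl fun v _ => h3 v] at h2
  have h4 : Even (∑ v, G.degree v * G.degree v) := by
    have h5 : Even (∑ v, (G.degree v * (G.degree v + 1))) :=
      Finset.sum_induction _ Even (fun _ _ => Even.add) Even.zero
        fun v _ => Nat.even_mul_succ_self _
    have h6 : Even (∑ v, G.degree v) := by
      rw [SimpleGraph.sum_degrees_eq_twice_card_edges]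
      exact even_two_mul _
    have h7 : ∑ v, (G.degree v * (G.degree v + 1)) =
        ∑ v, G.degree v * G.degree v + ∑ v, G.degree v := by
      rw [← sum_add_distrib]
      exact sum_congr rfl fun v _ => by ring
    rw [h7] at h5
    exact (Nat.even_add.1 h5).2 h6
  exact (Nat.even_add.1 h2).2 h4

end

/-- It is enough to check the inequality of Erdős and Gallai for the sets `K` all of whose members
have value at least `|K|`. -/
theorem heavy {n : ℕ} (d : Fin n → ℕ)
    (h : ∀ K : Finset (Fin n), (∀ i ∈ K, K.card ≤ d i) →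
      ∑ i ∈ K, d i ≤ K.card * (K.card - 1) + ∑ i ∈ Kᶜ, min (d i) K.card)
    (K : Finset (Fin n)) :
    ∑ i ∈ K, d i ≤ K.card * (K.card - 1) + ∑ i ∈ Kᶜ, min (d i) K.card := by
  induction K using Finset.strongInduction with
  | H K ih =>
    by_cases hK : ∀ i ∈ K, K.card ≤ d i
    · exact h K hK
    · push Not at hK
      obtain ⟨v, hv, hvd⟩ := hK
      have h1 := ih (K.erase v) (erase_ssubset hv)
      rw [compl_erase, sum_insert (by simpa using hv), card_erase_of_mem hv] at h1
      rw [← add_sum_erase K d hv]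
      have h2 : ∑ i ∈ Kᶜ, min (d i) (K.card - 1) ≤ ∑ i ∈ Kᶜ, min (d i) K.card :=
        sum_le_sum fun i _ => min_le_min le_rfl (by omega)
      have h3 : min (d v) (K.card - 1) ≤ d v := min_le_left _ _
      obtain ⟨c, hc⟩ : ∃ c, K.card = c + 1 := ⟨K.card - 1, by omega⟩
      rw [hc] at h1 h2 h3 hvd ⊢
      simp only [Nat.add_sub_cancel] at h1 h2 h3 ⊢
      have h4 : c * (c - 1) + 2 * c = (c + 1) * c := by
        cases c with
        | zero => rfl
        | succ c => simp only [Nat.add_sub_cancel]; ring
      omega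

/-- The multiset of the imbalances is the multiset of degrees of a simple graph. -/
theorem main {V : Type*} [Fintype V] [DecidableEq V] (G : SimpleGraph V) [DecidableRel G.Adj]
    (h0 : ∀ e ∈ G.edgeFinset, 0 < imb G e) :
    ∃ (H : SimpleGraph (Fin G.edgeFinset.card)) (_ : DecidableRel H.Adj),
      (univ.val.map fun i => H.degree i) = G.edgeFinset.val.map (imb G) := by
  classical
  set E := G.edgeFinset with hE
  let φ : Fin E.card ↪ Sym2 V :=
    ⟨fun i => (E.equivFin.symm i).1, fun i j hij => E.equivFin.symm.injective (Subtype.ext hij)⟩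
  have hφ : ∀ i, φ i ∈ E := fun i => (E.equivFin.symm i).2
  have hφu : univ.map φ = E := by
    apply eq_of_subset_of_card_le
    · intro e he
      obtain ⟨i, _, rfl⟩ := mem_map.1 he
      exact hφ i
    · rw [card_map, card_univ, Fintype.card_fin]
  have hφc : ∀ K : Finset (Fin E.card), Kᶜ.map φ = E \ K.map φ := by
    intro K
    have h1 : univ.map φ \ K.map φ = E \ K.map φ := by rw [hφu]
    rw [← h1, compl_eq_univ_sdiff, ← Finset.map_sdiff]
  have hgr : Pool.Agent.H51.EG.Gr (fun i => imb G (φ i)) := by
    apply Pool.Agent.H51.EG.eg_subset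
    · have h1 := even_sum_imb G
      rw [← hE, ← hφu, sum_map] at h1
      exact h1
    · apply heavy
      intro K hK
      have h1 := main_ineq G h0 (K.map φ) (fun e he => by
        obtain ⟨i, _, rfl⟩ := mem_map.1 he
        exact hφ i) (fun e he => by
        obtain ⟨i, hi, rfl⟩ := mem_map.1 he
        rw [card_map]
        exact hK i hi)
      rw [← hE, ← hφc, sum_map, sum_map, card_map] at h1
      exact h1
  obtain ⟨A, hA, hAd⟩ := hgr
  have hH := Pool.Agent.H51.EG.toG_realizes hA hAd
  refine ⟨Pool.Agent.H51.EG.toG A hA, Classical.decRel _, ?_⟩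
  have h2 : ∀ i, (Pool.Agent.H51.EG.toG A hA).degree i = imb G (φ i) := by
    intro i
    have h5 : ((Pool.Agent.H51.EG.toG A hA).neighborSet i).ncard = imb G (φ i) := hH i
    rw [← h5, ← SimpleGraph.card_neighborFinset_eq_degree, Set.ncard_eq_toFinset_card']
    congr 1
  have h3 : (univ.val.map fun i => (Pool.Agent.H51.EG.toG A hA).degree i) =
      univ.val.map fun i => imb G (φ i) := Multiset.map_congr rfl fun i _ => h2 i
  have h4 : (univ.val.map fun i => imb G (φ i)) = E.val.map (imb G) := by
    have h5 : (univ.map φ).val.map (imb G) = E.val.map (imb G) := by rw [hφu]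
    rw [← h5, map_val, Multiset.map_map]
    rfl
  rw [← h4, ← h3]

end Pool.Agent.H791_Imb
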